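import Mathlib

set_option autoImplicit false

namespace Pool.Agent.Results.MP_16f3b0_al.Neg

variable {R : Type} [NonUnitalNonAssocRing R]

def IsIdeal (I : AddSubgroup R) : Prop := ∀ a, ∀ u ∈ I, a * u ∈ I ∧ u * a ∈ I

/-- The quotient ring `J / I` is associative. -/
def AssocQuot (I J : AddSubgroup R) : Prop :=
  ∀ x ∈ J, ∀ y ∈ J, ∀ z ∈ J, (x * y) * z - x * (y * z) ∈ I

def E := ZMod 2 × ZMod 2 × ZMod 2

instance : Fintype E := inferInstanceAs (Fintype (ZMod 2 × ZMod 2 × ZMod 2))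
instance : DecidableEq E := inferInstanceAs (DecidableEq (ZMod 2 × ZMod 2 × ZMod 2))
instance ag : AddCommGroup E := inferInstanceAs (AddCommGroup (ZMod 2 × ZMod 2 × ZMod 2))

/-- Basis `a, b, c` with `a a = c`, `a b = a`, `a c = c a = b b = b`, other products zero. -/
instance ring : NonUnitalNonAssocRing E :=
  { ag with
    mul x y := (x.1 * y.2.1, x.1 * y.2.2 + x.2.1 * y.2.1 + x.2.2 * y.1, x.1 * y.1)
    left_distrib := by decide +kernel
    right_distrib := by decide +kernel
    zero_mul := by decide +kernel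
    mul_zero := by decide +kernel }

def a : E := (1, 0, 0)
def b : E := (0, 1, 0)

lemma simple {I : AddSubgroup E} (hI : IsIdeal I) : I = ⊥ ∨ I = ⊤ :=
  or_iff_not_imp_left.2 fun h => eq_top_iff.2 fun x _ => by
    obtain ⟨⟨u, hu⟩, h0⟩ := (AddSubgroup.ne_bot_iff_exists_ne_zero).1 h
    obtain ⟨p, q, e⟩ := (by decide +kernel : ∀ u : E, u ≠ 0 → ∃ p q, a = p * (q * u) ∨ a = p * u)
      u (fun h => h0 (Subtype.ext h))
    have ha : a ∈ I := e.elim (· ▸ (hI _ _ (hI _ _ hu).1).1) (· ▸ (hI _ _ hu).1)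
    obtain ⟨p, q, rfl⟩ := (by decide +kernel : ∀ x : E, ∃ p q, x = a * p + q * a) x
    exact I.add_mem (hI _ _ ha).2 (hI _ _ ha).1

theorem result : ∃ (A : Type) (_ : NonUnitalNonAssocRing A),
    (∀ x y : A, (x * y) * y = x * (y * y)) ∧
    (∃ a b : A, NonUnitalSubring.closure {a, b} = ⊤) ∧
    ∀ (n : ℕ) (I : ℕ → AddSubgroup A), I 0 = ⊥ → I n = ⊤ → (∀ k ≤ n, IsIdeal (I k)) →
      ∃ k < n, ¬AssocQuot (I k) (I (k + 1)) := by
  refine ⟨E, ring, by decide +kernel, ⟨a, b, eq_top_iff.2 fun x _ => ?_⟩, fun n I h0 hn hI => ?_⟩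
  · have ha : a ∈ NonUnitalSubring.closure {a, b} := NonUnitalSubring.subset_closure (by simp)
    have hb : b ∈ NonUnitalSubring.closure {a, b} := NonUnitalSubring.subset_closure (by simp)
    obtain ⟨i, j, k, rfl⟩ := (by decide +kernel : ∀ x : E, ∃ i j k : Fin 2,
      x = i.1 • a + j.1 • b + k.1 • (a * a)) x
    exact add_mem (add_mem (nsmul_mem ha _) (nsmul_mem hb _)) (nsmul_mem (mul_mem ha ha) _)
  · by_contra! h
    have : ∀ k ≤ n, I k = ⊥ := fun k hk => by
      induction k with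
      | zero => exact h0
      | succ k ih =>
        refine (simple (hI _ hk)).resolve_right fun e => ?_
        have := h k hk a (e ▸ trivial) a (e ▸ trivial) a (e ▸ trivial)
        have h2 := h k hk a (e ▸ trivial) a (e ▸ trivial) b (e ▸ trivial)
        rw [ih (by omega), AddSubgroup.mem_bot] at h2
        exact absurd h2 (by decide +kernel)
    have e : a ∈ I n := hn ▸ trivial
    rw [this n le_rfl, AddSubgroup.mem_bot] at e
    exact absurd e (by decide +kernel)

end Pool.Agent.Results.MP_16f3b0_al.Neg
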